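import Pool.Agent.J4H22.IX.Stm

set_option autoImplicit false

namespace Pool.Agent.J4H68.IX

open Finset Pool.Agent.J4H22.IX

/-- another output -/
def mp {ι V O O' : Type} (g : O → O') : Tree ι V O → Tree ι V O'
  | .ret o => .ret (g o)
  | .probe i f => .probe i (fun v => mp g (f v))

theorem mp_eval {ι V O O' : Type} (g : O → O') (m : ι → V) (T : Tree ι V O) : (mp g T).eval m = g (T.eval m) := by
  induction T with
  | ret o => rfl
  | probe i f ih =>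
    simp only [mp, Tree.eval]
    exact ih (m i)

theorem mp_probes {ι V O O' : Type} (g : O → O') (T : Tree ι V O) : ∀ t, T.Probes t → (mp g T).Probes t := by
  induction T with
  | ret o => intro t _; exact trivial
  | probe i f ih =>
    intro t ht
    cases t with
    | zero => exact ht.elim
    | succ t => exact fun v => ih v t (ht v)

theorem restrict {O O' : Type} {Ok : Finset ℕ → Finset ℕ → ℕ → O → Prop} {Ok' : Finset ℕ → Finset ℕ → ℕ → O' → Prop}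
    {n N N' s w t : ℕ} (g : O → O') (hN : N' ≤ N) (hOk : ∀ A B z o, Ok A B z o → Ok' A B z (g o))
    (h : Structure O Ok n N s w t) : Structure O' Ok' n N' s w t := by
  obtain ⟨Q, h1, h2⟩ := h
  refine ⟨fun z => mp g (Q z), fun z => mp_probes g _ _ (h1 z), fun A B hA hB hA' hB' => ?_⟩
  obtain ⟨m, hm⟩ := h2 A B hA hB (fun x hx => (hA' x hx).trans_le hN) (fun x hx => (hB' x hx).trans_le hN)
  refine ⟨m, fun z => ?_⟩
  show Ok' A B z ((mp g (Q z)).eval m)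
  rw [mp_eval]
  exact hOk _ _ _ _ (hm z)

theorem full_weak (A B : Finset ℕ) (z : ℕ) (o : Bool) (h : OkFull A B z o) : OkWeak A B z o := fun _ => h

theorem strong_full (A B : Finset ℕ) (z : ℕ) (o : Option (ℕ × ℕ) × ℕ) (h : OkStrong A B z o) :
    OkFull A B z o.1.isSome := by
  unfold OkFull
  constructor
  · intro h1
    by_contra h2
    have h3 : rep A B z = 0 := by omega
    rw [h.1 h3] at h1
    simp at h1
  · intro h1
    obtain ⟨⟨x, -, y, -, -, h2⟩, -⟩ := h.2 h1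
    rw [h2]
    rfl

theorem universe_le (n c : ℕ) (hn : 2 ≤ n) (hc : 8 ≤ c) : 64 * n ^ 2 ≤ 2 ^ (c * Nat.clog 2 n) := by
  have h1 : n ≤ 2 ^ Nat.clog 2 n := Nat.le_pow_clog (by norm_num) n
  have h2 : n ^ 8 ≤ 2 ^ (c * Nat.clog 2 n) := by
    calc n ^ 8 ≤ (2 ^ Nat.clog 2 n) ^ 8 := Nat.pow_le_pow_left h1 8
      _ = 2 ^ (8 * Nat.clog 2 n) := by rw [← pow_mul, mul_comm]
      _ ≤ 2 ^ (c * Nat.clog 2 n) := Nat.pow_le_pow_right (by norm_num) (Nat.mul_le_mul_right _ hc)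
  have h3 : 64 ≤ n ^ 6 := by
    calc 64 = 2 ^ 6 := by norm_num
      _ ≤ n ^ 6 := Nat.pow_le_pow_left hn 6
  calc 64 * n ^ 2 ≤ n ^ 6 * n ^ 2 := Nat.mul_le_mul_right _ h3
    _ = n ^ 8 := by rw [← pow_add]
    _ ≤ _ := h2

theorem clog_le (n : ℕ) (hn : 2 ≤ n) : ((Nat.clog 2 n : ℕ) : ℝ) ≤ Real.log n / Real.log 2 + 1 := by
  have h1 : 2 ^ (Nat.clog 2 n).pred < n := Nat.pow_pred_clog_lt_self (by norm_num) (by omega)
  have h0 : 0 < Nat.clog 2 n := Nat.clog_pos (by norm_num) hn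
  have h2 : ((2 : ℝ) ^ (Nat.clog 2 n).pred) < n := by exact_mod_cast h1
  have h3 : ((Nat.clog 2 n).pred : ℝ) * Real.log 2 ≤ Real.log n := by
    rw [← Real.log_pow]
    exact Real.log_le_log (by positivity) h2.le
  have hl : 0 < Real.log 2 := Real.log_pos (by norm_num)
  have h4 : ((Nat.clog 2 n).pred : ℝ) = (Nat.clog 2 n : ℝ) - 1 := by
    rw [Nat.pred_eq_sub_one, Nat.cast_sub h0]
    simp
  rw [h4] at h3
  have h5 : (Nat.clog 2 n : ℝ) - 1 ≤ Real.log n / Real.log 2 := by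
    rw [le_div_iff₀ hl]
    exact h3
  linarith

theorem grow (c' : ℕ) (e : ℝ) (he : 0 < e) : ∃ K : ℝ, 0 < K ∧ ∀ n : ℕ, 2 ≤ n →
    ((c' : ℝ) * (Nat.clog 2 n : ℕ) + 1) ^ 6 ≤ K * (n : ℝ) ^ e := by
  have hl : 0 < Real.log 2 := Real.log_pos (by norm_num)
  refine ⟨(c' * (1 / (e / 6 * Real.log 2) + 1) + 1) ^ 6, by positivity, fun n hn => ?_⟩
  have hn1 : (1 : ℝ) ≤ n := by exact_mod_cast (by omega : 1 ≤ n)
  have h1 := clog_le n hn
  have h2 : Real.log n ≤ (n : ℝ) ^ (e / 6) / (e / 6) := Real.log_le_rpow_div (by positivity) (by positivity)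
  set y : ℝ := (n : ℝ) ^ (e / 6) with hy
  have hy1 : 1 ≤ y := Real.one_le_rpow hn1 (by positivity)
  have h3 : ((Nat.clog 2 n : ℕ) : ℝ) ≤ (1 / (e / 6 * Real.log 2) + 1) * y := by
    have h4 : Real.log n / Real.log 2 ≤ (1 / (e / 6 * Real.log 2)) * y := by
      calc Real.log n / Real.log 2 ≤ (y / (e / 6)) / Real.log 2 := by gcongr
        _ = _ := by field_simp
    linarith
  have h5 : (c' : ℝ) * (Nat.clog 2 n : ℕ) + 1 ≤ (c' * (1 / (e / 6 * Real.log 2) + 1) + 1) * y := by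
    have h6 : (c' : ℝ) * (Nat.clog 2 n : ℕ) ≤ c' * ((1 / (e / 6 * Real.log 2) + 1) * y) := by gcongr
    linarith
  have h7 : y ^ 6 = (n : ℝ) ^ e := by
    rw [hy, ← Real.rpow_natCast, ← Real.rpow_mul (by positivity)]
    congr 1
    push_cast
    ring
  calc ((c' : ℝ) * (Nat.clog 2 n : ℕ) + 1) ^ 6 ≤ ((c' * (1 / (e / 6 * Real.log 2) + 1) + 1) * y) ^ 6 := by gcongr
    _ = _ := by rw [mul_pow, h7]

theorem up (hPAR : S_PAR) (hSPL : S_SPL) (hIDX : S_IDX) (c c' : ℕ) (hc' : 8 ≤ c')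
    (h : Form Bool OkWeak c (fun n => 64 * n ^ 2)) :
    Form (Option (ℕ × ℕ) × ℕ) OkStrong c' (fun n => 2 ^ (c' * Nat.clog 2 n)) := by
  obtain ⟨ε, C, hε, H⟩ := h
  set e : ℝ := min ε 2 / 2 with he
  have he0 : 0 < e := by positivity
  have he1 : 2 * e ≤ ε := by
    rw [he]
    have := min_le_left ε 2
    linarith
  have he2 : 2 * e ≤ 2 := by
    rw [he]
    have := min_le_right ε 2
    linarith
  obtain ⟨K, hK, hg⟩ := grow c' e he0
  obtain ⟨D, hD⟩ : ∃ D : ℕ, 480 * K * (c * C + 1) ≤ D := exists_nat_ge _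
  refine ⟨e, D + 480 * (c' + 1) ^ 6 * (c * C + 1) + (6 + C), he0, fun n hn => ?_⟩
  obtain ⟨s, t, h1, h2, h3⟩ := H n hn
  set L : ℕ := Nat.clog 2 n with hL
  have hL1 : 1 ≤ L := Nat.clog_pos (by norm_num) hn
  have hn1 : (1 : ℝ) ≤ n := by exact_mod_cast (by omega : 1 ≤ n)
  have h4 : Structure Bool OkWeak n (64 * n ^ 2) (c * s) (c' * L) (c * t) := by
    refine hSPL hIDX _ _ n _ s (c' * L) (c * L) c t ?_ h3
    exact Nat.mul_le_mul_left _ (Nat.le_mul_of_pos_left _ (by omega))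
  have h5 := hPAR n (c * s) (c' * L) (c * t) (by omega) (universe_le n c' hn hc') h4
  refine ⟨_, _, ?_, ?_, h5⟩
  · -- space
    push_cast
    have h6 : (c : ℝ) * s + 1 ≤ (c * C + 1) * (n : ℝ) ^ (2 - 2 * e) := by
      have h7 : (n : ℝ) ^ (2 - ε) ≤ (n : ℝ) ^ (2 - 2 * e) :=
        Real.rpow_le_rpow_of_exponent_le hn1 (by linarith)
      have h8 : 1 ≤ (n : ℝ) ^ (2 - 2 * e) := Real.one_le_rpow hn1 (by linarith)
      have h9 : (c : ℝ) * s ≤ c * (C * (n : ℝ) ^ (2 - 2 * e)) := by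
        have : (s : ℝ) ≤ C * (n : ℝ) ^ (2 - 2 * e) := h1.trans (by gcongr)
        gcongr
      linarith
    have h10 := hg n hn
    have h11 : 480 * ((c' : ℝ) * L + 1) ^ 6 * ((c : ℝ) * s + 1) ≤
        480 * (K * (n : ℝ) ^ e) * ((c * C + 1) * (n : ℝ) ^ (2 - 2 * e)) := by
      gcongr
    have h12 : (n : ℝ) ^ e * (n : ℝ) ^ (2 - 2 * e) = (n : ℝ) ^ (2 - e) := by
      rw [← Real.rpow_add (by linarith)]
      congr 1
      ring
    have h13 : 480 * (K * (n : ℝ) ^ e) * ((c * C + 1) * (n : ℝ) ^ (2 - 2 * e)) =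
        (480 * K * (c * C + 1)) * (n : ℝ) ^ (2 - e) := by
      rw [← h12]
      ring
    have h14 : (0 : ℝ) ≤ (n : ℝ) ^ (2 - e) := by positivity
    have h15 : (480 * K * (c * C + 1)) * (n : ℝ) ^ (2 - e) ≤
        ((D : ℝ) + 480 * ((c' : ℝ) + 1) ^ 6 * (c * C + 1) + (6 + C)) * (n : ℝ) ^ (2 - e) := by
      apply mul_le_mul_of_nonneg_right _ h14
      have : (0 : ℝ) ≤ 480 * ((c' : ℝ) + 1) ^ 6 * (c * C + 1) + (6 + C) := by positivity
      linarith
    calc _ ≤ _ := h11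
      _ = _ := h13
      _ ≤ _ := h15
  · -- time
    have h6 : c' * L + 1 ≤ (c' + 1) * L := by
      have : (c' + 1) * L = c' * L + L := by ring
      omega
    have hLC : 1 ≤ L ^ C := Nat.one_le_pow _ _ hL1
    have h7 : c * t + 1 ≤ (c * C + 1) * L ^ C := by
      have h8 : c * t ≤ c * (C * L ^ C) := Nat.mul_le_mul_left _ h2
      have h9 : (c * C + 1) * L ^ C = c * (C * L ^ C) + L ^ C := by ring
      omega
    have h8 : 480 * (c' * L + 1) ^ 6 * (c * t + 1) ≤ 480 * ((c' + 1) * L) ^ 6 * ((c * C + 1) * L ^ C) := by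
      gcongr
    have h9 : 480 * ((c' + 1) * L) ^ 6 * ((c * C + 1) * L ^ C) = (480 * (c' + 1) ^ 6 * (c * C + 1)) * L ^ (6 + C) := by
      rw [pow_add]
      ring
    have h10 : L ^ (6 + C) ≤ L ^ (D + 480 * (c' + 1) ^ 6 * (c * C + 1) + (6 + C)) :=
      Nat.pow_le_pow_right hL1 (by omega)
    calc _ ≤ _ := h8
      _ = _ := h9
      _ ≤ (D + 480 * (c' + 1) ^ 6 * (c * C + 1) + (6 + C)) * L ^ (D + 480 * (c' + 1) ^ 6 * (c * C + 1) + (6 + C)) := by
        apply Nat.mul_le_mul _ h10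
        omega

theorem t_ASM : S_ASM := by
  intro hPAR hSPL hIDX c c' hc hc'
  have hweak : ∀ c, 8 ≤ c → Form Bool OkFull c (fun n => 2 ^ (c * Nat.clog 2 n)) → Form Bool OkWeak c (fun n => 64 * n ^ 2) := by
    rintro c hc ⟨ε, C, hε, H⟩
    refine ⟨ε, C, hε, fun n hn => ?_⟩
    obtain ⟨s, t, h1, h2, h3⟩ := H n hn
    exact ⟨s, t, h1, h2, restrict id (universe_le n c hn hc) full_weak h3⟩
  have hfull : ∀ c, Form (Option (ℕ × ℕ) × ℕ) OkStrong c (fun n => 2 ^ (c * Nat.clog 2 n)) →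
      Form Bool OkFull c (fun n => 2 ^ (c * Nat.clog 2 n)) := by
    rintro c ⟨ε, C, hε, H⟩
    refine ⟨ε, C, hε, fun n hn => ?_⟩
    obtain ⟨s, t, h1, h2, h3⟩ := H n hn
    exact ⟨s, t, h1, h2, restrict (fun o => o.1.isSome) le_rfl strong_full h3⟩
  tfae_have 2 → 1 := hweak c hc
  tfae_have 1 → 3 := up hPAR hSPL hIDX c c' hc'
  tfae_have 3 → 2 := fun h => hfull c (up hPAR hSPL hIDX c' c hc (hweak c' hc' (hfull c' h)))
  tfae_finish

end Pool.Agent.J4H68.IX
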