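import Pool.Agent.J4H22.IX.Stm3
import Pool.Agent.J4H68.IX.Asm

set_option autoImplicit false

/-! Project IX, piece AS3 (helper68): assembly of the convolution form. -/

namespace Pool.Agent.J4H68.IX

open Finset Pool.Agent.J4H22.IX

theorem conv_lt {n m : ℕ} (hm : m ≤ n) {A : Finset ℕ} (hA : ConvSet n m A) : ∀ x ∈ A, x < 64 * n ^ 2 := by
  intro x hx
  obtain ⟨h1, h2, -⟩ := hA x hx
  have hm0 : 0 < m := by omega
  have h3 : x < n * (2 * m) := (Nat.div_lt_iff_lt_mul (by omega)).1 h1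
  have h4 : n * (2 * m) ≤ n * (2 * n) := Nat.mul_le_mul_left _ (by omega)
  have h5 : n * (2 * n) ≤ 64 * n ^ 2 := by nlinarith
  omega

theorem conv_card {n m : ℕ} {A : Finset ℕ} (hA : ConvSet n m A) : A.card ≤ n := by
  have h1 : A.card ≤ (range n).card := by
    apply card_le_card_of_injOn (fun x => x / (2 * m))
    · intro x hx
      rw [mem_coe, mem_range]
      exact (hA x hx).1
    · intro x hx y hy hxy
      exact (hA y hy).2.2 x hx hxy
  rwa [card_range] at h1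

theorem weak_of (hA1C : ∀ n s w t : ℕ, 1 ≤ n → 64 * n ^ 2 ≤ 2 ^ w → CStructure Bool OkWeak (ConvSet (256 * n) n) s w t →
    Structure Bool OkWeak n (2 ^ w) (20 * (w + 1) * (s + 1)) w (20 * (w + 1) * (t + 1))) (c : ℕ) (hc : 8 ≤ c)
    (h : CForm Bool OkWeak c (fun n => ConvSet (256 * n) n)) : Form Bool OkWeak c (fun n => 64 * n ^ 2) := by
  obtain ⟨ε, C, hε, H⟩ := h
  set e : ℝ := min ε 2 / 2 with he
  have he0 : 0 < e := by positivity
  have he1 : 2 * e ≤ ε := by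
    rw [he]
    have := min_le_left ε 2
    linarith
  have he2 : 2 * e ≤ 2 := by
    rw [he]
    have := min_le_right ε 2
    linarith
  obtain ⟨K, hK, hg⟩ := grow c e he0
  obtain ⟨D, hD⟩ : ∃ D : ℕ, 20 * K * (C + 1) ≤ D := exists_nat_ge _
  refine ⟨e, D + 20 * (c + 1) * (C + 1) + (1 + C), he0, fun n hn => ?_⟩
  obtain ⟨s, t, h1, h2, h3⟩ := H n hn
  set L : ℕ := Nat.clog 2 n with hL
  have hL1 : 1 ≤ L := Nat.clog_pos (by norm_num) hn
  have hn1 : (1 : ℝ) ≤ n := by exact_mod_cast (by omega : 1 ≤ n)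
  have h5 := restrict id (universe_le n c hn hc) (fun _ _ _ _ h => h)
    (hA1C n s (c * L) t (by omega) (universe_le n c hn hc) h3)
  refine ⟨_, _, ?_, ?_, h5⟩
  · -- space
    push_cast
    have h6 : (s : ℝ) + 1 ≤ (C + 1) * (n : ℝ) ^ (2 - 2 * e) := by
      have h7 : (n : ℝ) ^ (2 - ε) ≤ (n : ℝ) ^ (2 - 2 * e) :=
        Real.rpow_le_rpow_of_exponent_le hn1 (by linarith)
      have h8 : 1 ≤ (n : ℝ) ^ (2 - 2 * e) := Real.one_le_rpow hn1 (by linarith)
      have h9 : (s : ℝ) ≤ C * (n : ℝ) ^ (2 - 2 * e) := h1.trans (by gcongr)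
      linarith
    have h10 := hg n hn
    have h10' : (c : ℝ) * L + 1 ≤ K * (n : ℝ) ^ e := by
      refine le_trans ?_ h10
      have : (1 : ℝ) ≤ (c : ℝ) * L + 1 := by
        have : (0 : ℝ) ≤ (c : ℝ) * L := by positivity
        linarith
      calc (c : ℝ) * L + 1 = ((c : ℝ) * L + 1) ^ 1 := (pow_one _).symm
        _ ≤ ((c : ℝ) * L + 1) ^ 6 := pow_le_pow_right₀ this (by norm_num)
    have h11 : 20 * ((c : ℝ) * L + 1) * ((s : ℝ) + 1) ≤
        20 * (K * (n : ℝ) ^ e) * ((C + 1) * (n : ℝ) ^ (2 - 2 * e)) := by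
      gcongr
    have h12 : (n : ℝ) ^ e * (n : ℝ) ^ (2 - 2 * e) = (n : ℝ) ^ (2 - e) := by
      rw [← Real.rpow_add (by linarith)]
      congr 1
      ring
    have h13 : 20 * (K * (n : ℝ) ^ e) * ((C + 1) * (n : ℝ) ^ (2 - 2 * e)) =
        (20 * K * (C + 1)) * (n : ℝ) ^ (2 - e) := by
      rw [← h12]
      ring
    have h14 : (0 : ℝ) ≤ (n : ℝ) ^ (2 - e) := by positivity
    have h15 : (20 * K * (C + 1)) * (n : ℝ) ^ (2 - e) ≤
        ((D : ℝ) + 20 * ((c : ℝ) + 1) * (C + 1) + (1 + C)) * (n : ℝ) ^ (2 - e) := by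
      apply mul_le_mul_of_nonneg_right _ h14
      have : (0 : ℝ) ≤ 20 * ((c : ℝ) + 1) * (C + 1) + (1 + C) := by positivity
      linarith
    calc _ ≤ _ := h11
      _ = _ := h13
      _ ≤ _ := h15
  · -- time
    have h6 : c * L + 1 ≤ (c + 1) * L := by
      have : (c + 1) * L = c * L + L := by ring
      omega
    have hLC : 1 ≤ L ^ C := Nat.one_le_pow _ _ hL1
    have h7 : t + 1 ≤ (C + 1) * L ^ C := by
      have h9 : (C + 1) * L ^ C = C * L ^ C + L ^ C := by ring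
      omega
    have h8 : 20 * (c * L + 1) * (t + 1) ≤ 20 * ((c + 1) * L) * ((C + 1) * L ^ C) := by
      gcongr
    have h9 : 20 * ((c + 1) * L) * ((C + 1) * L ^ C) = (20 * (c + 1) * (C + 1)) * L ^ (1 + C) := by
      rw [pow_add]
      ring
    have h10 : L ^ (1 + C) ≤ L ^ (D + 20 * (c + 1) * (C + 1) + (1 + C)) :=
      Nat.pow_le_pow_right hL1 (by omega)
    calc _ ≤ _ := h8
      _ = _ := h9
      _ ≤ (D + 20 * (c + 1) * (C + 1) + (1 + C)) * L ^ (D + 20 * (c + 1) * (C + 1) + (1 + C)) := by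
        apply Nat.mul_le_mul _ h10
        omega

/-- a deterministic structure is a random one -/
theorem coin {O : Type} {Ok : Finset ℕ → Finset ℕ → ℕ → O → Prop} {Cl : Finset ℕ → Prop} {s w t : ℕ} {δ : ℝ} (hδ : δ ≤ 1 / 2)
    (h : CStructure O Ok Cl s w t) : RCStructure O Ok Cl s w t δ := by
  obtain ⟨Q, h1, h2⟩ := h
  refine ⟨Unit, inferInstance, fun _ => 1, fun _ => Q, fun _ => zero_le_one, by simp, fun _ => h1, fun A B hA hB => ?_⟩
  obtain ⟨m, hm⟩ := h2 A B hA hB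
  refine ⟨fun _ => m, fun z => ?_⟩
  have h3 : ({ω : Unit | Ok A B z ((Q z).eval m)} : Set Unit) = Set.univ := by
    ext ω
    simp only [Set.mem_ofPred_eq, Set.mem_univ, iff_true]
    exact hm z
  rw [h3]
  simp
  linarith

theorem t_AS3 : S_AS3 := by
  intro hFIN hRAC hUNC hA1C c c' D hc hc'
  have h0 := hFIN c c' hc hc'
  have h12 : Form Bool OkWeak c (fun n => 64 * n ^ 2) → Form Bool OkFull c (fun n => 2 ^ (c * Nat.clog 2 n)) :=
    (h0.out 0 1).1
  have h23 : Form Bool OkFull c (fun n => 2 ^ (c * Nat.clog 2 n)) ↔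
      Form (Option (ℕ × ℕ) × ℕ) OkStrong c' (fun n => 2 ^ (c' * Nat.clog 2 n)) := h0.out 1 2
  have hm : ∀ n, n / Nat.clog 2 n ^ D ≤ n := fun n => Nat.div_le_self _ _
  tfae_have 1 → 2 := by
    intro h
    apply h12
    apply weak_of hA1C c hc
    apply hUNC c D hc
    refine hRAC c _ hc (fun n hn A hA => ⟨conv_card hA, fun x hx => ?_⟩) h
    exact (conv_lt (hm n) hA x hx).trans_le (universe_le n c hn hc)
  tfae_have 2 ↔ 3 := h23
  tfae_have 2 → 1 := by
    rintro ⟨ε, C, hε, H⟩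
    refine ⟨ε, C + 1, hε, fun n hn => ?_⟩
    obtain ⟨s, t, h1, h2, Q, h3, h4⟩ := H n hn
    have hL1 : 1 ≤ Nat.clog 2 n := Nat.clog_pos (by norm_num) hn
    refine ⟨s, t, ?_, ?_, coin ?_ ⟨Q, h3, fun A B hA hB => ?_⟩⟩
    · refine h1.trans ?_
      push_cast
      have : (0 : ℝ) ≤ (n : ℝ) ^ (2 - ε) := by positivity
      nlinarith
    · refine h2.trans ?_
      exact Nat.mul_le_mul (by omega) (Nat.pow_le_pow_right hL1 (by omega))
    · have hLR : (1 : ℝ) ≤ (Nat.clog 2 n : ℝ) := by exact_mod_cast hL1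
      have h5 : (1 : ℝ) ≤ (Nat.clog 2 n : ℝ) ^ (C + 1) := one_le_pow₀ hLR
      apply one_div_le_one_div_of_le (by norm_num)
      push_cast
      have hC0 : (0 : ℝ) ≤ C := Nat.cast_nonneg _
      nlinarith
    · obtain ⟨m, hm'⟩ := h4 A B (conv_card hA) (conv_card hB)
        (fun x hx => (conv_lt (hm n) hA x hx).trans_le (universe_le n c hn hc))
        (fun x hx => (conv_lt (hm n) hB x hx).trans_le (universe_le n c hn hc))
      exact ⟨m, fun z => full_weak _ _ _ _ (hm' z)⟩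
  tfae_finish

end Pool.Agent.J4H68.IX
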